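import Pool.Agent.W528.Ord.Main3

/-!
# Positive density of ordinary reduction: abelian varieties with real or complex multiplication

`K₀` is a number field, `A₀` an abelian variety of dimension `g` over `K₀`, `F v₀` the characteristic
polynomial of Frobenius at the place `v₀` on the Tate module.  Over a finite extension `K` (over which
the `ℓ`-adic monodromy groups are connected) `A₀` is isogenous to a product of powers of abelian
varieties `A i` with multiplication by totally real or CM fields `(A i).E` defined over `K`.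

If some element `γ` of the absolute Galois group of `K` satisfies the orbit condition for all `i`, then
the places of `K₀` at which `A₀` has good ordinary reduction have positive lower density.
-/

set_option autoImplicit false

namespace Pool.Agent.Results.MP_17d720_ag.FrobeniusOrbits

open NumberField IsDedekindDomain Polynomial
open Pool.Agent.W401.Cheb Pool.Agent.W528.Ord

/-- `v₀` is a place of good ordinary reduction: its residue characteristic `p` is not in the finite set
`S` and does not divide the middle coefficient of the Frobenius polynomial (the reduction, of dimension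
`g`, has `p`-rank `g`) -/
def GoodOrdinary {K₀ : Type} [Field K₀] [NumberField K₀] (S : Finset ℕ)
    (F : HeightOneSpectrum (𝓞 K₀) → Polynomial ℤ) (g : ℕ) (v₀ : HeightOneSpectrum (𝓞 K₀)) : Prop :=
  ∃ p : ℕ, p.Prime ∧ (p : 𝓞 K₀) ∈ v₀.asIdeal ∧ p ∉ S ∧ ¬ (p : ℤ) ∣ (F v₀).coeff g

theorem result (K₀ K : Type) [Field K₀] [NumberField K₀] [Field K] [NumberField K] [Algebra K₀ K]
    (ℓ : ℕ) [Fact ℓ.Prime] {ι : Type} [Fintype ι] (A : ι → MultSystem K ℓ) (m : ι → ℕ)
    (χ : GK K →* (PadicAlgCl ℓ)ˣ) (S : Finset ℕ) (hA : ∀ i, (A i).IsAbelian χ S) (g : ℕ)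
    (hg : 2 * g = ∑ i, m i * ((A i).n * Module.finrank ℚ (A i).E))
    (F : HeightOneSpectrum (𝓞 K₀) → Polynomial ℤ)
    (hF : ∀ (v₀ : HeightOneSpectrum (𝓞 K₀)) (v : HeightOneSpectrum (𝓞 K)),
      v.asIdeal.comap (algebraMap (𝓞 K₀) (𝓞 K)) = v₀.asIdeal → MultSystem.IsDeg1 S v →
      (F v₀).map (Int.castRingHom (AlgebraicClosure K)) = MultSystem.prodPoly A m v)
    (hγ : ∃ γ : GK K, ∀ i, (A i).Admissible γ) :
    0 < lowerDensity (GoodOrdinary S F g) := by
  classical
  obtain ⟨G, hG⟩ : ∃ G : HeightOneSpectrum (𝓞 K) → Polynomial ℤ, ∀ v : HeightOneSpectrum (𝓞 K),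
      (Ideal.absNorm v.asIdeal).Prime → ∀ v₀ : HeightOneSpectrum (𝓞 K₀),
      v.asIdeal.comap (algebraMap (𝓞 K₀) (𝓞 K)) = v₀.asIdeal → G v = F v₀ := by
    refine ⟨fun v => if h : (Ideal.absNorm v.asIdeal).Prime then
      F (exists_under (K₀ := K₀) v h).choose else 0, fun v hv v₀ hv₀ => ?_⟩
    simp only [dif_pos hv]
    congr 1
    apply HeightOneSpectrum.ext
    rw [← hv₀]
    exact (exists_under (K₀ := K₀) v hv).choose_spec.1.symm
  obtain ⟨δ, hδ, hev⟩ := MultSystem.lower_K A m χ S hγ g hg hA G (fun v hv hvS => by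
    obtain ⟨v₀, h0, -⟩ := exists_under (K₀ := K₀) v hv
    rw [hG v hv v₀ h0]
    exact hF v₀ v h0 ⟨hv, hvS⟩)
  have hd : (0 : ℝ) < (Module.finrank ℚ K : ℝ) := by exact_mod_cast Module.finrank_pos
  apply lowerDensity_pos _ (δ / (Module.finrank ℚ K : ℝ)) (by positivity)
  filter_upwards [hev] with N hN
  have h1 := dens_under (K₀ := K₀) (fun v : HeightOneSpectrum (𝓞 K) =>
      ((Ideal.absNorm v.asIdeal).Prime ∧ Ideal.absNorm v.asIdeal ∉ S) ∧
      ¬ (Ideal.absNorm v.asIdeal : ℤ) ∣ (G v).coeff g) (GoodOrdinary S F g)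
      (fun v hv => hv.1.1) (fun v v₀ hv h0 => by
        refine ⟨Ideal.absNorm v.asIdeal, hv.1.1, ?_, hv.1.2, ?_⟩
        · have h2 : (Ideal.absNorm v.asIdeal : 𝓞 K₀) ∈
              v.asIdeal.comap (algebraMap (𝓞 K₀) (𝓞 K)) := by
            rw [Ideal.mem_comap, map_natCast]
            exact Ideal.absNorm_mem _
          rw [h0] at h2
          exact h2
        · rw [← hG v hv.1.1 v₀ h0]
          exact hv.2) N
  rw [div_le_iff₀ hd, mul_comm]
  exact hN.trans h1

end Pool.Agent.Results.MP_17d720_ag.FrobeniusOrbits
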